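import Pool.Agent.W719.AR.Geo
import Pool.Agent.W816.HT.HV

/-!
# The volume at a hinge (project AR, part VLF)
-/

set_option autoImplicit false

namespace Pool.Agent.W597.AR

open Pool.Agent.W719.AR
open Pool.Agent.W711.HT
open Pool.Agent.W709.VC (Dv S_DSYM S_FIVE)
open scoped Real

/-- the five term relation for the points `1, Y, Y W, W, ∞` -/
lemma HH_sum (hS : S_DSYM) (hF : S_FIVE) (Y W : ℂ) (hY0 : Y ≠ 0) (hY1 : Y ≠ 1) (hW0 : W ≠ 0)
    (hW1 : W ≠ 1) (h1 : W ≠ Y) (h2 : Y * W ≠ 1) :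
    HH Y W + HH Y⁻¹ W = Dv (W * (1 - Y) ^ 2 / (Y * (1 - W) ^ 2)) := by
  obtain ⟨-, hS1, hS2⟩ := hS
  have a1 : (1 : ℂ) - Y ≠ 0 := sub_ne_zero.2 hY1.symm
  have a2 : (1 : ℂ) - W ≠ 0 := sub_ne_zero.2 hW1.symm
  have a3 : Y - W ≠ 0 := sub_ne_zero.2 h1.symm
  have a4 : (1 : ℂ) - Y * W ≠ 0 := sub_ne_zero.2 h2.symm
  set x := (1 - W) / (1 - Y) with hx
  set y := (1 - Y * W) / (1 - Y) with hy
  have x0 : x ≠ 0 := div_ne_zero a2 a1
  have y0 : y ≠ 0 := div_ne_zero a4 a1
  have ex : 1 - x = -(Y - W) / (1 - Y) := by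
    rw [hx]; field_simp; ring
  have ey : 1 - y = -Y * (1 - W) / (1 - Y) := by
    rw [hy]; field_simp; ring
  have x1 : x ≠ 1 := by
    intro h
    have : 1 - x ≠ 0 := by
      rw [ex]; exact div_ne_zero (neg_ne_zero.2 a3) a1
    exact this (by rw [h]; ring)
  have y1 : y ≠ 1 := by
    intro h
    have : 1 - y ≠ 0 := by
      rw [ey]; exact div_ne_zero (mul_ne_zero (neg_ne_zero.2 hY0) a2) a1
    exact this (by rw [h]; ring)
  have xy : x ≠ y := by
    intro h
    have h' : 1 - W = 1 - Y * W := by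
      rw [hx, hy] at h
      field_simp at h
      rw [h]; ring
    have : W * (1 - Y) = 0 := by linear_combination -h'
    rcases mul_eq_zero.1 this with h'' | h''
    · exact hW0 h''
    · exact a1 h''
  have key := hF x y x0 x1 y0 y1 xy
  have e1 : y / x = ((1 - W) / (1 - Y * W))⁻¹ := by
    rw [hx, hy, inv_div]; field_simp
  have e2 : (1 - x) / (1 - y) = (Y * (1 - W) / (Y - W))⁻¹ := by
    rw [ex, ey, inv_div]; field_simp
  have e3 : (1 - x⁻¹) / (1 - y⁻¹) = 1 - W * (1 - Y) ^ 2 / (Y * (1 - W) ^ 2) := by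
    have g1 : 1 - x⁻¹ = (Y - W) / (1 - W) := by
      rw [hx, inv_div]; field_simp; ring
    have g2 : 1 - y⁻¹ = Y * (1 - W) / (1 - Y * W) := by
      rw [hy, inv_div]; field_simp; ring
    rw [g1, g2]
    field_simp
    ring
  rw [e1, e2, e3, hS1, hS2, hS2] at key
  have f1 : HH Y W = Dv ((1 - W) / (1 - Y * W)) + Dv y := rfl
  have f2 : HH Y⁻¹ W = Dv (Y * (1 - W) / (Y - W)) - Dv x := by
    unfold HH
    have g1 : (1 - W) / (1 - Y⁻¹ * W) = Y * (1 - W) / (Y - W) := by
      have : 1 - Y⁻¹ * W = (Y - W) / Y := by field_simp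
      rw [this]; field_simp
    have g2 : (1 - Y⁻¹ * W) / (1 - Y⁻¹) = 1 - x := by
      have h3 : 1 - Y⁻¹ * W = (Y - W) / Y := by field_simp
      have h4 : 1 - Y⁻¹ = -(1 - Y) / Y := by field_simp; ring
      rw [h3, h4, ex]; field_simp
    rw [g1, g2, hS1]; ring
  rw [f1, f2]
  linarith

lemma fla_vol (ψ u : ℂ) : (fla ψ u).vol = HH (YY ψ) (WW ψ u) := by
  unfold fla flS Fl.vol HH Dv
  simp only
  ring

lemma WW_eq (ψ u : ℂ) : WW ψ u = Complex.exp (2 * Complex.I * tt ψ u) := by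
  unfold WW tt
  have hI : Complex.I ≠ 0 := Complex.I_ne_zero
  congr 1
  field_simp

lemma YY_eq (ψ : ℂ) : YY ψ = (Complex.exp (Complex.I * ψ))⁻¹ := by
  unfold YY
  rw [Complex.exp_neg]

/-- the equation of the hinge -/
lemma ratio {ψ ψ' u : ℂ} (hp : HP ψ ψ' u) :
    (Complex.cos u + Complex.cos ψ') * (1 + Complex.cos ψ) =
      (1 - Complex.cos u) * (1 + Complex.cos ψ') ∧
    1 + Complex.cos ψ ≠ 0 := by
  obtain ⟨g1, g2⟩ := W816.HT.small_facts ψ hp.sm
  obtain ⟨k1, k2⟩ := W816.HT.small_facts ψ' hp.sm'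
  have hsum : 2 + Complex.cos ψ + Complex.cos ψ' ≠ 0 := by
    intro h
    have e : (Complex.cos ψ - 1) + (Complex.cos ψ' - 1) = -4 := by linear_combination h
    have := norm_add_le (Complex.cos ψ - 1) (Complex.cos ψ' - 1)
    rw [e] at this
    norm_num at this
    linarith
  have hcψ : 1 + Complex.cos ψ ≠ 0 := by
    intro h
    have : Complex.cos ψ - 1 = -2 := by linear_combination h
    rw [this] at g2
    norm_num at g2
  have h := hp.eq
  rw [eq_div_iff hsum] at h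
  exact ⟨by linear_combination h, hcψ⟩

theorem vlf : S_HV → S_DSYM → S_FIVE → S_HLOC → S_VLF := by
  intro hv0 hS hF hloc ψ ψ' u hp
  have hp' := W816.HT.HP_symm hp
  have key := hv0 ψ ψ' u hp 1 (Or.inl rfl)
  have w2 := (hloc ψ' ψ u hp').1
  have e1 : Complex.exp (-(Complex.I * ((1 : ℝ) : ℂ) * ψ)) = YY ψ := by
    unfold YY; rw [Complex.ofReal_one, mul_one]
  have e2 : Complex.exp (Complex.I * ((1 : ℝ) : ℂ) * ψ') = Complex.exp (Complex.I * ψ') := by
    rw [Complex.ofReal_one, mul_one]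
  rw [e1, e2, ← WW_eq, ← WW_eq] at key
  rw [← WW_eq] at w2
  rw [fla_vol, fla_vol, YY_eq ψ']
  -- the numbers
  have hpi := Real.pi_gt_three
  have hpi4 := Real.pi_le_four
  have hre : |(u - π / 2).re| ≤ π / 8 := (Complex.abs_re_le_norm _).trans hp.un
  have hre' : (u - π / 2).re = u.re - π / 2 := by
    simp [Complex.sub_re]
  rw [hre', abs_le] at hre
  have hψ' : |ψ'.re| ≤ 1 / 10 := (Complex.abs_re_le_norm _).trans hp.sm'
  rw [abs_le] at hψ'
  obtain ⟨k1, k2⟩ := W816.HT.small_facts ψ' hp.sm'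
  have gone := W816.HT.exp_ne_one' ψ' hp.ne' hp.sm'
  have x1 := W816.HT.exp_ne_one u (by linarith) (by linarith)
  have n1 : Complex.exp (Complex.I * u) + Complex.exp (Complex.I * ψ') ≠ 0 := by
    intro h
    apply W816.HT.exp_ne_neg_one (ψ' - u)
    · rw [Complex.sub_re, abs_lt]
      constructor <;> linarith
    · rw [mul_sub, Complex.exp_sub, div_eq_iff (Complex.exp_ne_zero _)]
      linear_combination h
  have n2 : 1 + Complex.exp (Complex.I * u) * Complex.exp (Complex.I * ψ') ≠ 0 := by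
    intro h
    apply W816.HT.exp_ne_neg_one (u + ψ')
    · rw [Complex.add_re, abs_lt]
      constructor <;> linarith
    · rw [mul_add, Complex.exp_add]
      linear_combination h
  obtain ⟨r1, r2⟩ := ratio hp
  have hX := Complex.exp_ne_zero (Complex.I * u)
  have hK := Complex.exp_ne_zero (Complex.I * ψ')
  have c1 : 2 * Complex.cos u = Complex.exp (Complex.I * u) + (Complex.exp (Complex.I * u))⁻¹ := by
    rw [Complex.cos, ← Complex.exp_neg, mul_comm Complex.I u, neg_mul]; ring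
  have c2 : 2 * Complex.cos ψ' =
      Complex.exp (Complex.I * ψ') + (Complex.exp (Complex.I * ψ'))⁻¹ := by
    rw [Complex.cos, ← Complex.exp_neg, mul_comm Complex.I ψ', neg_mul]; ring
  generalize Complex.exp (Complex.I * u) = X at *
  generalize Complex.exp (Complex.I * ψ') = K at *
  have m1 : (1 : ℂ) - K ≠ 0 := sub_ne_zero.2 gone.symm
  have m2 : (1 : ℂ) - X ≠ 0 := sub_ne_zero.2 x1.symm
  have m3 : (1 : ℂ) + K ≠ 0 := by
    intro h; exact k1 (by linear_combination h)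
  have d1 : 1 - WW ψ' u = (1 - X) * (1 - K) / (1 + X * K) := by
    rw [w2]; field_simp; ring
  have d2 : K - WW ψ' u = -(X * (1 - K) * (1 + K)) / (1 + X * K) := by
    rw [w2, eq_div_iff n2, sub_mul, div_mul_cancel₀ _ n2]; ring
  have d3 : 1 - K * WW ψ' u = (1 - K) * (1 + K) / (1 + X * K) := by
    rw [w2, mul_div_assoc', eq_div_iff n2, sub_mul, div_mul_cancel₀ _ n2]; ring
  have hW1 : WW ψ' u ≠ 1 := by
    intro h
    have : 1 - WW ψ' u ≠ 0 := by
      rw [d1]; exact div_ne_zero (mul_ne_zero m2 m1) n2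
    exact this (by rw [h]; ring)
  have hWK : WW ψ' u ≠ K := by
    intro h
    have : K - WW ψ' u ≠ 0 := by
      rw [d2]; exact div_ne_zero (neg_ne_zero.2 (mul_ne_zero (mul_ne_zero hX m1) m3)) n2
    exact this (by rw [h]; ring)
  have hKW : K * WW ψ' u ≠ 1 := by
    intro h
    have : 1 - K * WW ψ' u ≠ 0 := by
      rw [d3]; exact div_ne_zero (mul_ne_zero m1 m3) n2
    exact this (by rw [h]; ring)
  have hW0 : WW ψ' u ≠ 0 := by
    rw [w2]; exact div_ne_zero n1 n2
  have hsum := HH_sum hS hF K (WW ψ' u) hK gone hW0 hW1 hWK hKW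
  have harg : WW ψ' u * (1 - K) ^ 2 / (K * (1 - WW ψ' u) ^ 2) =
      -((1 + Complex.cos ψ') / (1 + Complex.cos ψ)) := by
    have h0 : WW ψ' u * (1 - K) ^ 2 / (K * (1 - WW ψ' u) ^ 2) =
        (X + K) * (1 + X * K) / (K * (1 - X) ^ 2) := by
      rw [d1, w2]; field_simp
    have h1 : (X + K) * (1 + X * K) = 2 * X * K * (Complex.cos u + Complex.cos ψ') := by
      have : 2 * X * K * (Complex.cos u + Complex.cos ψ') =
          X * K * (2 * Complex.cos u + 2 * Complex.cos ψ') := by ring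
      rw [this, c1, c2]; field_simp; ring
    have h2 : (1 - X) ^ 2 = -(2 * X * (1 - Complex.cos u)) := by
      have : -(2 * X * (1 - Complex.cos u)) = X * (2 * Complex.cos u - 2) := by ring
      rw [this, c1]; field_simp; ring
    rw [h0, ← neg_div, div_eq_div_iff (mul_ne_zero hK (pow_ne_zero 2 m2)) r2, h1, h2]
    linear_combination (2 * X * K) * r1
  rw [harg] at hsum
  linarith

end Pool.Agent.W597.AR
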